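import Pool.Agent.Helper73.RFn.GoalsG

/-!
MP_c98eff_gt, project RFn, packet BWR: ring properties of `BW` (general dimension; after
`Pool.Agent.Helper27.RF.bwr`).
-/

set_option autoImplicit false

open Finset

namespace Pool.Agent.Helper35.RFn.BWR

open _root_.Pool.Agent.Helper47.RFn _root_.Pool.Agent.Helper73.RFn

variable {n : ℕ}

/-- smooth slices -/
def SS1 (T : ℝ) (u : ℝ → EE n → ℝ) : Prop := ∀ t, 0 < t → t < T → Sm (u t)

theorem SS1.ed (c1 : Goal_C1) {T : ℝ} {u : ℝ → EE n → ℝ} (h : SS1 T u) (i : Fin (n + 1)) :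
    SS1 T (fun t => ed i (u t)) :=
  fun t h0 hT => (c1 n).2.2.2.2.2.2.2.2.1 (u t) i (h t h0 hT)

theorem sm_Ew (c1 : Goal_C1) {f : EE n → ℝ} (hf : Sm f) (w : List (Fin (n + 1))) : Sm (Ew w f) :=
  (c1 n).2.2.2.2.2.2.2.2.2.2.1 f w hf

theorem Ew_append (w : List (Fin (n + 1))) (i : Fin (n + 1)) (f : EE n → ℝ) :
    Ew (w ++ [i]) f = Ew w (ed i f) := by
  induction w with
  | nil => rfl
  | cons j w ih =>
    show Pool.Agent.Helper47.RFn.ed j (Ew (w ++ [i]) f) =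
      Pool.Agent.Helper47.RFn.ed j (Ew w (Pool.Agent.Helper47.RFn.ed i f))
    rw [ih]

theorem Ew_add (c1 : Goal_C1) (c2 : Goal_C2) {f h : EE n → ℝ} (hf : Sm f) (hh : Sm h)
    (w : List (Fin (n + 1))) :
    Ew w (fun x => f x + h x) = fun x => Ew w f x + Ew w h x := by
  induction w with
  | nil => rfl
  | cons j w ih =>
    funext x
    show Pool.Agent.Helper47.RFn.ed j (Ew w (fun x => f x + h x)) x =
      Pool.Agent.Helper47.RFn.ed j (Ew w f) x + Pool.Agent.Helper47.RFn.ed j (Ew w h) x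
    rw [ih]
    exact (c2 n).2.1 j _ _ x (sm_Ew c1 hf w) (sm_Ew c1 hh w)

theorem Ew_sub (c1 : Goal_C1) (c2 : Goal_C2) {f h : EE n → ℝ} (hf : Sm f) (hh : Sm h)
    (w : List (Fin (n + 1))) :
    Ew w (fun x => f x - h x) = fun x => Ew w f x - Ew w h x := by
  induction w with
  | nil => rfl
  | cons j w ih =>
    funext x
    show Pool.Agent.Helper47.RFn.ed j (Ew w (fun x => f x - h x)) x =
      Pool.Agent.Helper47.RFn.ed j (Ew w f) x - Pool.Agent.Helper47.RFn.ed j (Ew w h) x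
    rw [ih]
    exact (c2 n).2.2.1 j _ _ x (sm_Ew c1 hf w) (sm_Ew c1 hh w)

theorem Ew_neg (c2 : Goal_C2) (f : EE n → ℝ) (w : List (Fin (n + 1))) :
    Ew w (fun x => -f x) = fun x => -Ew w f x := by
  induction w with
  | nil => rfl
  | cons j w ih =>
    funext x
    show Pool.Agent.Helper47.RFn.ed j (Ew w (fun x => -f x)) x =
      -Pool.Agent.Helper47.RFn.ed j (Ew w f) x
    rw [ih]
    exact (c2 n).2.2.2.1 j _ x

theorem Ew_const (c2 : Goal_C2) (c : ℝ) (w : List (Fin (n + 1))) :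
    ∃ c' : ℝ, Ew w (fun _ : EE n => c) = fun _ => c' := by
  induction w with
  | nil => exact ⟨c, rfl⟩
  | cons j w ih =>
    obtain ⟨c', hc⟩ := ih
    refine ⟨0, ?_⟩
    funext x
    show Pool.Agent.Helper47.RFn.ed j (Ew w (fun _ => c)) x = 0
    rw [hc]
    exact (c2 n).1 j c' x

theorem BW.mono {T : ℝ} {m k : ℕ} {u : ℝ → EE n → ℝ} (h : BW T k u) (hmn : m ≤ k) : BW T m u :=
  fun w hw => h w (hw.trans hmn)

theorem bw_add (c1 : Goal_C1) (c2 : Goal_C2) {T : ℝ} {m : ℕ} {u v : ℝ → EE n → ℝ}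
    (su : SS1 T u) (sv : SS1 T v)
    (hu : BW T m u) (hv : BW T m v) : BW T m (fun t x => u t x + v t x) := by
  intro w hw
  obtain ⟨C, hC⟩ := hu w hw
  obtain ⟨D, hD⟩ := hv w hw
  refine ⟨C + D, fun t h0 hT x hx => ?_⟩
  rw [Ew_add c1 c2 (su t h0 hT) (sv t h0 hT)]
  exact (abs_add_le _ _).trans (add_le_add (hC t h0 hT x hx) (hD t h0 hT x hx))

theorem bw_sub (c1 : Goal_C1) (c2 : Goal_C2) {T : ℝ} {m : ℕ} {u v : ℝ → EE n → ℝ}
    (su : SS1 T u) (sv : SS1 T v)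
    (hu : BW T m u) (hv : BW T m v) : BW T m (fun t x => u t x - v t x) := by
  intro w hw
  obtain ⟨C, hC⟩ := hu w hw
  obtain ⟨D, hD⟩ := hv w hw
  refine ⟨C + D, fun t h0 hT x hx => ?_⟩
  rw [Ew_sub c1 c2 (su t h0 hT) (sv t h0 hT)]
  exact (abs_sub _ _).trans (add_le_add (hC t h0 hT x hx) (hD t h0 hT x hx))

theorem bw_neg (c2 : Goal_C2) {T : ℝ} {m : ℕ} {u : ℝ → EE n → ℝ} (hu : BW T m u) :
    BW T m (fun t x => -u t x) := by
  intro w hw
  obtain ⟨C, hC⟩ := hu w hw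
  refine ⟨C, fun t h0 hT x hx => ?_⟩
  rw [Ew_neg c2, abs_neg]
  exact hC t h0 hT x hx

theorem bw_succ {T : ℝ} {m : ℕ} {u : ℝ → EE n → ℝ} (h0 : BW T 0 u)
    (h : ∀ i, BW T m (fun t => ed i (u t))) : BW T (m + 1) u := by
  intro w hw
  rcases List.eq_nil_or_concat w with rfl | ⟨w', i, rfl⟩
  · exact h0 [] le_rfl
  · have hl : w'.length ≤ m := by
      rw [List.concat_eq_append, List.length_append] at hw
      simpa using hw
    obtain ⟨C, hC⟩ := h i w' hl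
    refine ⟨C, fun t h0 hT x hx => ?_⟩
    rw [List.concat_eq_append, Ew_append]
    exact hC t h0 hT x hx

theorem bw_E {T : ℝ} {m : ℕ} {u : ℝ → EE n → ℝ} (h : BW T (m + 1) u) (i : Fin (n + 1)) :
    BW T m (fun t => ed i (u t)) := by
  intro w hw
  obtain ⟨C, hC⟩ := h (w ++ [i]) (by simpa using hw)
  refine ⟨C, fun t h0 hT x hx => ?_⟩
  have := hC t h0 hT x hx
  rwa [Ew_append] at this

theorem bw_mul (c1 : Goal_C1) (c2 : Goal_C2) {T : ℝ} (m : ℕ) :
    ∀ {u v : ℝ → EE n → ℝ}, SS1 T u → SS1 T v →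
    BW T m u → BW T m v → BW T m (fun t x => u t x * v t x) := by
  have base : ∀ {u v : ℝ → EE n → ℝ}, BW T 0 u → BW T 0 v →
      BW T 0 (fun t x => u t x * v t x) := by
    intro u v hu hv w hw
    have hw0 : w = [] := List.length_eq_zero_iff.1 (Nat.le_zero.1 hw)
    subst hw0
    obtain ⟨C, hC⟩ := hu [] le_rfl
    obtain ⟨D, hD⟩ := hv [] le_rfl
    refine ⟨C * D, fun t h0 hT x hx => ?_⟩
    show |u t x * v t x| ≤ C * D
    rw [abs_mul]
    have h1 : |u t x| ≤ C := hC t h0 hT x hx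
    have h2 : |v t x| ≤ D := hD t h0 hT x hx
    exact mul_le_mul h1 h2 (abs_nonneg _) ((abs_nonneg _).trans h1)
  induction m with
  | zero => intro u v _ _ hu hv; exact base hu hv
  | succ m ih =>
    intro u v su sv hu hv
    refine bw_succ (base (BW.mono hu (Nat.zero_le _)) (BW.mono hv (Nat.zero_le _))) fun i => ?_
    have h1 := ih (su.ed c1 i) sv (bw_E hu i) (BW.mono hv (Nat.le_succ m))
    have h2 := ih su (sv.ed c1 i) (BW.mono hu (Nat.le_succ m)) (bw_E hv i)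
    have smul := (c1 n).2.2.2.1
    have h3 := bw_add c1 c2 (fun t h0 hT => smul _ _ (su.ed c1 i t h0 hT) (sv t h0 hT))
      (fun t h0 hT => smul _ _ (su t h0 hT) (sv.ed c1 i t h0 hT)) h1 h2
    intro w hw
    obtain ⟨C, hC⟩ := h3 w hw
    refine ⟨C, fun t h0 hT x hx => ?_⟩
    have e1 : Pool.Agent.Helper47.RFn.ed i (fun x => u t x * v t x) =
        fun x => Pool.Agent.Helper47.RFn.ed i (u t) x * v t x +
          u t x * Pool.Agent.Helper47.RFn.ed i (v t) x := by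
      funext x
      exact (c2 n).2.2.2.2.1 i _ _ x (su t h0 hT) (sv t h0 hT)
    show |Ew w (Pool.Agent.Helper47.RFn.ed i (fun x => u t x * v t x)) x| ≤ C
    rw [e1]
    exact hC t h0 hT x hx

/-- packet BWR -/
theorem bwr (c1 : Goal_C1) (c2 : Goal_C2) (c4 : Goal_C4) (js : JsrStmt) : BwrStmt := by
  intro n T m u v ju jv
  have hsm := (js n T).2.2.2.2.2.2.2.2.1
  have su : SS1 T u := fun t h0 hT => hsm u ju t h0 hT
  have sv : SS1 T v := fun t h0 hT => hsm v jv t h0 hT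
  refine ⟨fun hu hv => ⟨bw_mul c1 c2 m su sv hu hv, bw_add c1 c2 su sv hu hv,
    bw_sub c1 c2 su sv hu hv, bw_neg c2 hu⟩, ?_, ?_, fun h0 h => bw_succ h0 h,
    fun h i => bw_E h i⟩
  · intro c w _
    obtain ⟨c', hc⟩ := Ew_const (n := n) c2 c w
    exact ⟨|c'|, fun t _ _ x _ => by rw [hc]⟩
  · intro i w _
    have h1 : Sm (Ew w (nn i : EE n → ℝ)) := sm_Ew c1 ((c1 n).2.2.2.2.2.2.2.2.2.2.2 i) w
    obtain ⟨C, hC⟩ := (c4 n).1 _ h1
    exact ⟨C + |Ew w (nn i : EE n → ℝ) 0|, fun t _ _ x _ => hC x⟩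

end Pool.Agent.Helper35.RFn.BWR
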