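import Pool.Agent.Helper73.RFn.GoalsG
import Pool.Agent.Helper35.RFn.BWR

/-!
MP_c98eff_gt, project RFn, packet BWG: linear systems of ODE in `t` with parameters (general
dimension; after `Pool.Agent.Helper80.RF.bwg`).
-/

set_option autoImplicit false

open Finset

namespace Pool.Agent.Helper35.RFn.BWG

open _root_.Pool.Agent.Helper47.RFn _root_.Pool.Agent.Helper73.RFn

variable {n₀ : ℕ}

/-- Gronwall, uniformly in the parameter -/
theorem gron {T K ε C a : ℝ} {n : ℕ} (hK : 0 < K) (hε : 0 ≤ ε) (hC : 0 ≤ C) (ha : 0 < a)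
    (y y' : ℝ → Fin n → ℝ)
    (hd : ∀ t, 0 < t → t < T → HasDerivAt y (y' t) t)
    (hb : ∀ t, 0 < t → t < T → ‖y' t‖ ≤ K * ‖y t‖ + ε) (h0 : ‖y a‖ ≤ C) :
    ∀ t, a ≤ t → t < T → ‖y t‖ ≤ C * Real.exp (K * T) + ε / K * Real.exp (K * T) := by
  intro t hat htT
  have h1 := norm_le_gronwallBound_of_norm_deriv_right_le (f := y) (f' := y') (δ := C) (K := K)
    (ε := ε) (a := a) (b := t)
    (fun s hs => (hd s (by linarith [hs.1]) (by linarith [hs.2])).continuousAt.continuousWithinAt)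
    (fun s hs => (hd s (by linarith [hs.1]) (by linarith [hs.2])).hasDerivWithinAt) h0
    (fun s hs => hb s (by linarith [hs.1]) (by linarith [hs.2])) t ⟨hat, le_rfl⟩
  refine h1.trans ?_
  rw [gronwallBound_of_K_ne_0 hK.ne']
  have h2 : Real.exp (K * (t - a)) ≤ Real.exp (K * T) := by
    refine Real.exp_le_exp.2 (mul_le_mul_of_nonneg_left (by linarith) hK.le)
  have h3 : 0 ≤ ε / K := div_nonneg hε hK.le
  have h4 : C * Real.exp (K * (t - a)) ≤ C * Real.exp (K * T) := mul_le_mul_of_nonneg_left h2 hC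
  have h5 : ε / K * (Real.exp (K * (t - a)) - 1) ≤ ε / K * Real.exp (K * T) :=
    mul_le_mul_of_nonneg_left (by linarith) h3
  exact add_le_add h4 h5

/-- the case without derivatives -/
theorem bwg0 {T : ℝ} {n : ℕ} {u : Fin n → ℝ → EE n₀ → ℝ} {p : Fin n → Fin n → ℝ → EE n₀ → ℝ}
    {r : Fin n → ℝ → EE n₀ → ℝ} (hT : 0 < T)
    (hp : ∀ j l, ∃ C, ∀ t, 0 < t → t < T → ∀ x, x ≠ 0 → |p j l t x| ≤ C)
    (hr : ∀ j, ∃ C, ∀ t, 0 < t → t < T → ∀ x, x ≠ 0 → |r j t x| ≤ C)
    (hd : ∀ j t, 0 < t → t < T → ∀ x, x ≠ 0 →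
      HasDerivAt (fun r' => u j r' x) (∑ l, p j l t x * u l t x + r j t x) t)
    (h0 : ∀ j, ∃ C t0 : ℝ, 0 < t0 ∧ t0 < T ∧ ∀ t, 0 < t → t < t0 → ∀ x, x ≠ 0 →
      |u j t x| ≤ C) :
    ∃ C, ∀ j, ∀ t, 0 < t → t < T → ∀ x, x ≠ 0 → |u j t x| ≤ C := by
  choose P hP using hp
  choose R hR using hr
  choose C0 t0 ht0 ht0T hC0 using h0
  have hev : ∀ᶠ a in nhdsWithin (0 : ℝ) (Set.Ioi 0), ∀ j, a < t0 j := by
    refine Filter.eventually_all.2 fun j => ?_
    exact (eventually_lt_nhds (ht0 j)).filter_mono nhdsWithin_le_nhds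
  have hev2 : ∀ᶠ a in nhdsWithin (0 : ℝ) (Set.Ioi 0), a < T :=
    (eventually_lt_nhds hT).filter_mono nhdsWithin_le_nhds
  obtain ⟨a, ⟨ha1, ha2⟩, ha3⟩ := ((hev.and hev2).and self_mem_nhdsWithin).exists
  have ha0 : 0 < a := ha3
  set C := ∑ j, |C0 j| with hCdef
  set K := ∑ j, ∑ l, |P j l| + 1 with hKdef
  set ε := ∑ j, |R j| with hεdef
  have hC : 0 ≤ C := Finset.sum_nonneg fun j _ => abs_nonneg _
  have hK : 0 < K := add_pos_of_nonneg_of_pos
    (Finset.sum_nonneg fun j _ => Finset.sum_nonneg fun l _ => abs_nonneg _) one_pos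
  have hε : 0 ≤ ε := Finset.sum_nonneg fun j _ => abs_nonneg _
  have hCj : ∀ j, C0 j ≤ C := fun j => (le_abs_self _).trans
    (Finset.single_le_sum (f := fun j => |C0 j|) (fun j _ => abs_nonneg _) (Finset.mem_univ j))
  have hRj : ∀ j, R j ≤ ε := fun j => (le_abs_self _).trans
    (Finset.single_le_sum (f := fun j => |R j|) (fun j _ => abs_nonneg _) (Finset.mem_univ j))
  have hPj : ∀ j, ∑ l, |P j l| ≤ K := fun j => (Finset.single_le_sum
    (f := fun j => ∑ l, |P j l|) (fun j _ => Finset.sum_nonneg fun l _ => abs_nonneg _)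
    (Finset.mem_univ j)).trans (by linarith)
  have hE1 : 1 ≤ Real.exp (K * T) := Real.one_le_exp (by positivity)
  have hnn : 0 ≤ ε / K * Real.exp (K * T) := by positivity
  refine ⟨C * Real.exp (K * T) + ε / K * Real.exp (K * T), fun j t ht htT x hx => ?_⟩
  rcases lt_or_ge t a with h2 | h2
  · have h3 : |u j t x| ≤ C := (hC0 j t ht (h2.trans (ha1 j)) x hx).trans (hCj j)
    have h4 : C ≤ C * Real.exp (K * T) := le_mul_of_one_le_right hC hE1
    linarith
  · have h5 := gron (T := T) (n := n) hK hε hC ha0 (fun s j => u j s x)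
      (fun s j => ∑ l, p j l s x * u l s x + r j s x)
      (fun s h6 h7 => hasDerivAt_pi.2 fun j => hd j s h6 h7 x hx)
      (fun s h6 h7 => ?_) ?_ t h2 htT
    · exact (norm_le_pi_norm (fun j => u j t x) j).trans h5
    · refine (pi_norm_le_iff_of_nonneg (by positivity)).2 fun j => ?_
      rw [Real.norm_eq_abs]
      calc |∑ l, p j l s x * u l s x + r j s x| ≤ |∑ l, p j l s x * u l s x| + |r j s x| :=
            abs_add_le _ _
        _ ≤ ∑ l, |p j l s x * u l s x| + ε :=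
            add_le_add (Finset.abs_sum_le_sum_abs _ _) ((hR j s h6 h7 x hx).trans (hRj j))
        _ ≤ ∑ l, |P j l| * ‖fun j => u j s x‖ + ε := by
            refine add_le_add (Finset.sum_le_sum fun l _ => ?_) le_rfl
            rw [abs_mul]
            exact mul_le_mul ((hP j l s h6 h7 x hx).trans (le_abs_self _))
              (norm_le_pi_norm (fun j => u j s x) l) (abs_nonneg _) (abs_nonneg _)
        _ ≤ K * ‖fun j => u j s x‖ + ε := by
            rw [← Finset.sum_mul]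
            exact add_le_add (mul_le_mul_of_nonneg_right (hPj j) (norm_nonneg _)) le_rfl
    · refine (pi_norm_le_iff_of_nonneg hC).2 fun j => ?_
      rw [Real.norm_eq_abs]
      -- the value at `a`
      exact (hC0 j a ha0 (ha1 j) x hx).trans (hCj j)

theorem js_sum (js : JsrStmt) {T : ℝ} {ι : Type} (s : Finset ι) (u : ι → ℝ → EE n₀ → ℝ)
    (hu : ∀ a, JS T (u a)) : JS T (fun t x => ∑ a ∈ s, u a t x) :=
  (js n₀ T).2.2.2.2.2.1 ι s u fun a _ => hu a

theorem bw_sum (h : BwrStmt) (js : JsrStmt) {T : ℝ} {m : ℕ} {ι : Type} (s : Finset ι)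
    (u : ι → ℝ → EE n₀ → ℝ)
    (hu : ∀ a, JS T (u a)) (hb : ∀ a, BW T m (u a)) : BW T m (fun t x => ∑ a ∈ s, u a t x) := by
  classical
  induction s using Finset.induction_on with
  | empty =>
    simp only [Finset.sum_empty]
    exact (h n₀ T m _ _ ((js n₀ T).2.1 0) ((js n₀ T).2.1 0)).2.1 0
  | insert a s ha ih =>
    simp only [Finset.sum_insert ha]
    exact ((h n₀ T m _ _ (hu a) (js_sum js s u hu)).1 (hb a) ih).2.1

theorem bwg (h : BwrStmt) (js : JsrStmt) (c1 : Goal_C1) (c2 : Goal_C2) : BwgStmt := by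
  intro n₀ T m n
  induction m with
  | zero =>
    intro u p r hT hu hp hr hbp hbr hd h0 j
    obtain ⟨C, hC⟩ := bwg0 (u := u) (p := p) (r := r) hT
      (fun j l => hbp j l [] le_rfl) (fun j => hbr j [] le_rfl) hd (fun j => h0 j [])
    intro w hw
    have hw0 : w = [] := List.length_eq_zero_iff.1 (Nat.le_zero.1 hw)
    rw [hw0]
    exact ⟨C, fun t ht htT x hx => hC j t ht htT x hx⟩
  | succ m ih =>
    intro u p r hT hu hp hr hbp hbr hd h0 j
    have hm : ∀ j, BW T m (u j) :=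
      ih u p r hT hu hp hr (fun j l => BWR.BW.mono (hbp j l) (Nat.le_succ m))
        (fun j => BWR.BW.mono (hbr j) (Nat.le_succ m)) hd h0
    have jmul : ∀ f g : ℝ → EE n₀ → ℝ, JS T f → JS T g → JS T (fun t x => f t x * g t x) :=
      fun f g hf hg => ((js n₀ T).1 f g hf hg).1
    have jadd : ∀ f g : ℝ → EE n₀ → ℝ, JS T f → JS T g → JS T (fun t x => f t x + g t x) :=
      fun f g hf hg => ((js n₀ T).1 f g hf hg).2.1
    have jed : ∀ (f : ℝ → EE n₀ → ℝ) (i : Fin (n₀ + 1)), JS T f → JS T (fun t => ed i (f t)) :=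
      (js n₀ T).2.2.2.2.2.2.1
    have jsm : ∀ f : ℝ → EE n₀ → ℝ, JS T f → ∀ t, 0 < t → t < T → Sm (f t) :=
      (js n₀ T).2.2.2.2.2.2.2.2.1
    refine (h n₀ T m _ _ (hu j) (hu j)).2.2.2.1 (BWR.BW.mono (hm j) (Nat.zero_le m)) fun i => ?_
    have hJs : ∀ j, JS T (fun t x => ∑ l, ed i (p j l t) x * u l t x) := fun j =>
      js_sum js _ (fun l t x => ed i (p j l t) x * u l t x) fun l =>
        jmul (fun t => ed i (p j l t)) (u l) (jed _ i (hp j l)) (hu l)
    have hBs : ∀ j, BW T m (fun t x => ∑ l, ed i (p j l t) x * u l t x) := fun j =>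
      bw_sum h js _ (fun l t x => ed i (p j l t) x * u l t x)
        (fun l => jmul (fun t => ed i (p j l t)) (u l) (jed _ i (hp j l)) (hu l)) fun l =>
        ((h n₀ T m (fun t => ed i (p j l t)) _ (jed _ i (hp j l)) (hu l)).1
          ((h n₀ T m _ _ (hp j l) (hp j l)).2.2.2.2 (hbp j l) i) (hm l)).1
    refine ih (fun j t => ed i (u j t)) p
      (fun j t x => ∑ l, ed i (p j l t) x * u l t x + ed i (r j t) x) hT
      (fun j => jed _ i (hu j)) hp (fun j => jadd _ _ (hJs j) (jed _ i (hr j)))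
      (fun j l => BWR.BW.mono (hbp j l) (Nat.le_succ m))
      (fun j => ((h n₀ T m _ _ (hJs j) (jed _ i (hr j))).1 (hBs j)
          ((h n₀ T m _ _ (hr j) (hr j)).2.2.2.2 (hbr j) i)).2.1) ?_ ?_ j
    · intro j t ht htT x hx
      obtain ⟨u', hu', hdu⟩ := (js n₀ T).2.2.2.2.2.2.2.2.2 (u j) (hu j)
      have hu'e : ∀ y, y ≠ 0 → u' t y = ∑ l, p j l t y * u l t y + r j t y := fun y hy =>
        (hdu [] t ht htT y hy).unique (hd j t ht htT y hy)
      have h1 : HasDerivAt (fun s => ed i (u j s) x) (ed i (u' t) x) t := hdu [i] t ht htT x hx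
      have hsp : ∀ j l, Sm (p j l t) := fun j l => jsm _ (hp j l) t ht htT
      have hsu : ∀ j, Sm (u j t) := fun j => jsm _ (hu j) t ht htT
      have hsr : ∀ j, Sm (r j t) := fun j => jsm _ (hr j) t ht htT
      have he : ed i (u' t) x = ed i (fun x => ∑ l, p j l t x * u l t x + r j t x) x := by
        have h5 : (u' t) =ᶠ[nhds x] fun x => ∑ l, p j l t x * u l t x + r j t x := by
          filter_upwards [isOpen_compl_singleton.mem_nhds hx] with y hy
          exact hu'e y hy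
        unfold ed pd
        rw [h5.fderiv_eq]
      have h2 : ed i (fun x => ∑ l, p j l t x * u l t x + r j t x) x =
          ∑ l, p j l t x * ed i (u l t) x + (∑ l, ed i (p j l t) x * u l t x + ed i (r j t) x) := by
        have hmul : ∀ l, Sm (fun x => p j l t x * u l t x) := fun l =>
          (c1 n₀).2.2.2.1 _ _ (hsp j l) (hsu l)
        rw [(c2 n₀).2.1 i _ _ x ((c1 n₀).2.2.2.2.2.1 _ _ (fun l x => p j l t x * u l t x)
            fun l _ => hmul l) (hsr j),
          (c2 n₀).2.2.2.2.2.2.1 _ _ (fun l x => p j l t x * u l t x) i x (fun l _ => hmul l)]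
        have h3 : ∀ l, ed i (fun x => p j l t x * u l t x) x =
            p j l t x * ed i (u l t) x + ed i (p j l t) x * u l t x := by
          intro l
          rw [(c2 n₀).2.2.2.2.1 i _ _ x (hsp j l) (hsu l)]
          ring
        rw [Finset.sum_congr rfl fun l _ => h3 l, Finset.sum_add_distrib]
        ring
      rw [← h2, ← he]
      exact h1
    · intro j w
      obtain ⟨C, t0, h1, h2, h3⟩ := h0 j (w ++ [i])
      refine ⟨C, t0, h1, h2, fun t ht htT x hx => ?_⟩
      rw [← BWR.Ew_append]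
      exact h3 t ht htT x hx

end Pool.Agent.Helper35.RFn.BWG
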